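import Mathlib

namespace Pool.Agent.Results.MP_a37635_nt.NoSum

/-- The map `f(z) = z² + z` on the algebraic closure of `ℚ`. -/
noncomputable def f (z : AlgebraicClosure ℚ) : AlgebraicClosure ℚ := z ^ 2 + z

/-- `x` is preperiodic for `f`: its forward orbit is finite. -/
def Preperiodic (x : AlgebraicClosure ℚ) : Prop := (Set.range fun n : ℕ => f^[n] x).Finite

noncomputable def g (w : ℂ) : ℂ := w ^ 2 + 1 / 4

def Esc (w : ℂ) : Prop := ∃ k, (121 / 100 : ℝ) ≤ ‖g^[k] w‖

def S : ℤ := 6597069766656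
def R : ℤ := 7982454417654
def B : ℤ := 134217728

def nw (s t : ℤ) : ℤ := (s / t + t) / 2 + 1
def ub (s : ℤ) : ℤ := nw s (nw s (nw s (nw s S)))

def esc : ℕ → ℤ → ℤ → ℤ → Bool
  | 0, x, y, r => decide ((r + R) * (r + R) ≤ x * x + y * y)
  | n + 1, x, y, r => decide ((r + R) * (r + R) ≤ x * x + y * y) ||
      (decide (r ≤ S) && decide (0 ≤ ub (x * x + y * y)) &&
        decide (x * x + y * y ≤ ub (x * x + y * y) * ub (x * x + y * y)) &&
        esc n ((x * x - y * y) / S + S / 4) (2 * x * y / S)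
          ((2 * ub (x * x + y * y) * r + r * r) / S + 3))

def chk : ℕ → ℤ → ℤ → Bool
  | 0, x, y => esc 25 x y (2 * B)
  | d + 1, x, y => esc 25 x y (3 * (2 ^ d * B)) ||
      (chk d (x - 2 ^ d * B) (y - 2 ^ d * B) && chk d (x - 2 ^ d * B) (y + 2 ^ d * B) &&
        chk d (x + 2 ^ d * B) (y - 2 ^ d * B) && chk d (x + 2 ^ d * B) (y + 2 ^ d * B))

theorem run : chk 16 (5497558138880 + 2 ^ 16 * B) 0 = true := by decide +kernel

theorem le_of_sq_le_sq {a b : ℝ} (h : a ^ 2 ≤ b ^ 2) (hb : 0 ≤ b) : a ≤ b :=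
  le_trans (le_abs_self a) (abs_le_of_sq_le_sq' h hb |> abs_le.2)

theorem fl (a : ℤ) : |(a : ℝ) / S - (a / S : ℤ)| ≤ 1 ∧ (a : ℝ) / S ≤ (a / S : ℤ) + 1 := by
  have h1 : a / S * S ≤ a := Int.ediv_mul_le a (by decide)
  have h2 : a < (a / S + 1) * S := Int.lt_ediv_add_one_mul_self a (by decide)
  have s0 : (0 : ℝ) < S := by norm_num [S]
  have h1' : ((a / S : ℤ) : ℝ) ≤ a / S := by rw [le_div_iff₀ s0]; exact_mod_cast h1
  have h2' : (a : ℝ) / S < (a / S : ℤ) + 1 := by rw [div_lt_iff₀ s0]; exact_mod_cast h2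
  exact ⟨abs_le.2 ⟨by linarith, by linarith⟩, h2'.le⟩

theorem nsq (x y : ℤ) : ‖(⟨x, y⟩ : ℂ)‖ ^ 2 = ((x * x + y * y : ℤ) : ℝ) := by
  rw [Complex.sq_norm, Complex.normSq_apply]; push_cast; ring

theorem base {x y r : ℤ} (hr : 0 ≤ r) (h : (r + R) * (r + R) ≤ x * x + y * y) (w : ℂ)
    (hw : ‖w * (S : ℝ) - ⟨x, y⟩‖ ≤ r) : Esc w := by
  refine ⟨0, ?_⟩
  have h1 : ((r + R : ℤ) : ℝ) ≤ ‖(⟨x, y⟩ : ℂ)‖ := by
    refine le_of_sq_le_sq ?_ (norm_nonneg _)
    rw [nsq, sq]; exact_mod_cast h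
  have h2 := norm_sub_norm_le (⟨x, y⟩ : ℂ) (w * (S : ℝ))
  rw [norm_sub_rev, norm_mul, Complex.norm_real] at h2
  simp only [Function.iterate_zero, id]
  norm_num [S, R] at h1 h2 hw ⊢
  linarith

theorem esc_ok : ∀ (n : ℕ) (x y r : ℤ), 0 ≤ r → esc n x y r = true → ∀ w : ℂ,
    ‖w * (S : ℝ) - ⟨x, y⟩‖ ≤ r → Esc w
  | 0, x, y, r, hr, h, w, hw => base hr (by simpa [esc] using h) w hw
  | n + 1, x, y, r, hr, h, w, hw => by
    simp only [esc, Bool.or_eq_true, Bool.and_eq_true, decide_eq_true_eq] at h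
    rcases h with h | ⟨⟨⟨-, u0⟩, hu⟩, h⟩
    · exact base hr h w hw
    set u := ub (x * x + y * y)
    have s0 : (0 : ℝ) < S := by norm_num [S]
    have hr' : (0 : ℝ) ≤ r := by exact_mod_cast hr
    have u0' : (0 : ℝ) ≤ u := by exact_mod_cast u0
    have hc : ‖(⟨x, y⟩ : ℂ)‖ ≤ u := by
      refine le_of_sq_le_sq ?_ u0'
      rw [nsq, sq]; exact_mod_cast hu
    obtain ⟨k, hk⟩ := esc_ok n _ _ _ (add_nonneg (Int.ediv_nonneg (by positivity) (by decide))
      (by norm_num)) h (g w) (by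
      set c : ℂ := ⟨x, y⟩ with hcd
      have e : g w * (S : ℝ) - ⟨((x * x - y * y) / S + S / 4 : ℤ), (2 * x * y / S : ℤ)⟩ =
          (w * (S : ℝ) - c) * ((w * (S : ℝ) - c) + 2 * c) / (S : ℝ) +
          ⟨((x * x - y * y : ℤ) : ℝ) / S - ((x * x - y * y) / S : ℤ),
            ((2 * x * y : ℤ) : ℝ) / S - (2 * x * y / S : ℤ)⟩ := by
        have s4 : ((S / 4 : ℤ) : ℝ) = S / 4 := by norm_num [S]
        have e1 : (w * (S : ℝ) - c) * ((w * (S : ℝ) - c) + 2 * c) / (S : ℝ) =
            w ^ 2 * (S : ℝ) - c ^ 2 * ((S : ℝ)⁻¹ : ℝ) := by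
          have : ((S : ℝ) : ℂ) ≠ 0 := by exact_mod_cast s0.ne'
          push_cast at this ⊢; field_simp; ring
        rw [e1, Int.cast_add, s4]
        generalize ((x * x - y * y) / S : ℤ) = A
        generalize (2 * x * y / S : ℤ) = A'
        apply Complex.ext <;>
          simp only [g, hcd, pow_two, Complex.add_re, Complex.add_im, Complex.sub_re,
            Complex.sub_im, Complex.mul_re, Complex.mul_im, Complex.ofReal_re, Complex.ofReal_im,
            Complex.div_ofNat_re, Complex.div_ofNat_im, Complex.one_re, Complex.one_im] <;>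
          push_cast <;> ring
      rw [e]
      refine (norm_add_le _ _).trans ?_
      have b1 : ‖(w * (S : ℝ) - c) * ((w * (S : ℝ) - c) + 2 * c) / (S : ℝ)‖ ≤
          ((2 * u * r + r * r : ℤ) : ℝ) / S := by
        rw [norm_div, norm_mul, Complex.norm_real, Real.norm_of_nonneg s0.le]
        gcongr
        have := norm_add_le (w * (S : ℝ) - c) (2 * c)
        rw [norm_mul, Complex.norm_ofNat] at this
        push_cast at *
        calc _ ≤ r * (r + 2 * u : ℝ) := by gcongr; linarith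
          _ = _ := by ring
      have b2 := Complex.norm_le_abs_re_add_abs_im
        ⟨((x * x - y * y : ℤ) : ℝ) / S - ((x * x - y * y) / S : ℤ),
            ((2 * x * y : ℤ) : ℝ) / S - (2 * x * y / S : ℤ)⟩
      have f1 := (fl (x * x - y * y)).1
      have f2 := (fl (2 * x * y)).1
      have f3 := (fl (2 * u * r + r * r)).2
      rw [Int.cast_add _ 3]
      simp only [Int.cast_ofNat] at *
      linarith)
    exact ⟨k + 1, hk⟩

theorem disc {x y : ℤ} {h : ℝ} {W : ℂ} (h1 : |W.re - x| ≤ h) (h2 : |W.im - y| ≤ h) :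
    ‖W - ⟨x, y⟩‖ ≤ 3 / 2 * h := by
  have h0 : 0 ≤ h := (abs_nonneg _).trans h1
  refine le_of_sq_le_sq ?_ (by positivity)
  rw [Complex.sq_norm, Complex.normSq_apply]
  simp only [Complex.sub_re, Complex.sub_im]
  nlinarith [sq_le_sq' (abs_le.1 h1).1 (abs_le.1 h1).2, sq_le_sq' (abs_le.1 h2).1 (abs_le.1 h2).2]

theorem chk_ok : ∀ (d : ℕ) (x y : ℤ), chk d x y = true → ∀ w : ℂ,
    |(w * (S : ℝ)).re - x| ≤ 2 ^ d * B → |(w * (S : ℝ)).im - y| ≤ 2 ^ d * B → Esc w
  | 0, x, y, h, w, h1, h2 => esc_ok 25 x y _ (by decide) h w ((disc h1 h2).trans (by norm_num [B]))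
  | d + 1, x, y, h, w, h1, h2 => by
    simp only [chk, Bool.or_eq_true, Bool.and_eq_true] at h
    rcases h with h | ⟨⟨⟨a, b⟩, c⟩, e⟩
    · refine esc_ok 25 x y _ (by unfold B; positivity) h w ((disc h1 h2).trans (le_of_eq ?_))
      push_cast; ring
    rw [abs_le, pow_succ] at h1 h2
    rcases le_total (w * (S : ℝ)).re x with p | p <;> rcases le_total (w * (S : ℝ)).im y with q | q
    · refine chk_ok d _ _ a w ?_ ?_ <;> push_cast at * <;> rw [abs_le] <;> constructor <;> linarith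
    · refine chk_ok d _ _ b w ?_ ?_ <;> push_cast at * <;> rw [abs_le] <;> constructor <;> linarith
    · refine chk_ok d _ _ c w ?_ ?_ <;> push_cast at * <;> rw [abs_le] <;> constructor <;> linarith
    · refine chk_ok d _ _ e w ?_ ?_ <;> push_cast at * <;> rw [abs_le] <;> constructor <;> linarith

theorem half (w : ℂ) (hw : 5 / 6 ≤ w.re) : Esc w := by
  by_cases h : (121 / 100 : ℝ) ≤ ‖w‖
  · exact ⟨0, h⟩
  have h1 := abs_le.1 (Complex.abs_re_le_norm w)
  have h2 := abs_le.1 (Complex.abs_im_le_norm w)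
  refine chk_ok 16 _ _ run w ?_ ?_ <;> rw [abs_le] <;> norm_num [S, B] <;> constructor <;> linarith

theorem grow {w : ℂ} (h : (121 / 100 : ℝ) ≤ ‖w‖) : ‖w‖ < ‖g w‖ := by
  have := norm_sub_le (g w) (1 / 4)
  rw [show g w - 1 / 4 = w ^ 2 by simp [g], norm_pow] at this
  norm_num at this
  nlinarith

theorem inf {w : ℂ} (h : Esc w) : (Set.range fun n : ℕ => g^[n] w).Infinite := by
  obtain ⟨k, hk⟩ := h
  have h1 : ∀ n, (121 / 100 : ℝ) ≤ ‖g^[n + k] w‖ := by
    intro n
    induction n with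
    | zero => simpa using hk
    | succ n ih => rw [Nat.add_right_comm, Function.iterate_succ_apply']; exact ih.trans (grow ih).le
  have h2 : StrictMono fun n => ‖g^[n + k] w‖ := strictMono_nat_of_lt_succ fun n => by
    rw [Nat.add_right_comm, Function.iterate_succ_apply']; exact grow (h1 n)
  refine Set.infinite_of_injective_forall_mem (f := fun n => g^[n + k] w)
    (fun a b hab => h2.injective (congrArg norm hab)) fun n => ⟨n + k, rfl⟩

theorem result (a b c : AlgebraicClosure ℚ) (ha : Preperiodic a) (hb : Preperiodic b)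
    (hc : Preperiodic c) : a + b + c ≠ 1 := by
  haveI : Algebra.IsAlgebraic ℚ (AlgebraicClosure ℚ) := AlgebraicClosure.isAlgebraic ℚ
  let φ : AlgebraicClosure ℚ →ₐ[ℚ] ℂ := IsAlgClosed.lift
  have key : ∀ x, Preperiodic x → (φ x).re < 1 / 3 := by
    intro x hx
    by_contra hn
    have e : ∀ n, g^[n] (φ x + 1 / 2) = φ (f^[n] x) + 1 / 2 := by
      intro n
      induction n with
      | zero => rfl
      | succ n ih =>
        rw [Function.iterate_succ_apply', Function.iterate_succ_apply', ih, g, f, map_add, map_pow]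
        ring
    refine inf (half (φ x + 1 / 2) (by simp; linarith)) ((hx.image fun z => φ z + 1 / 2).subset ?_)
    rintro _ ⟨n, rfl⟩
    exact ⟨_, ⟨n, rfl⟩, (e n).symm⟩
  intro h
  have h1 := congrArg (fun z => (φ z).re) h
  simp only [map_add, Complex.add_re, map_one, Complex.one_re] at h1
  linarith [key a ha, key b hb, key c hc]

end Pool.Agent.Results.MP_a37635_nt.NoSum
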